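import Pool.Agent.Helper95.HV.Stmts
import Pool.Agent.Helper14.PW.POE
import Pool.Agent.Helper12.PM.PONM

/-!
# Row DBS: the double commutator identity with the potential energy (no singularity at the nuclei)
-/

set_option autoImplicit false

namespace Pool.Agent.Helper45.HV

open MeasureTheory Filter Topology Pool.Agent.Helper95.PW Pool.Agent.Helper95.LN
open Pool.Agent.Helper95.HV
open Pool.Agent.Helper14.PW Pool.Agent.Helper76.PW Pool.Agent.Helper12.PM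

/-- dominated convergence, with the integrability of the limit -/
theorem dbs_dom {n : ℕ} {v : Cf n → ℝ} (hv : Continuous v) {H : ℕ → Cf n → ℝ} {B L : Cf n → ℝ}
    (hH : ∀ j, Continuous (H j)) (hB : Integrable (fun x => B x * v x ^ 2))
    (hb : ∀ j, ∀ᵐ x, |H j x| ≤ B x) (hl : ∀ᵐ x, Tendsto (fun j => H j x) atTop (𝓝 (L x))) :
    Integrable (fun x => L x * v x ^ 2) ∧
    Tendsto (fun j => ∫ x, H j x * v x ^ 2) atTop (𝓝 (∫ x, L x * v x ^ 2)) := by
  have m : ∀ j, AEStronglyMeasurable (fun x => H j x * v x ^ 2) volume := fun j =>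
    ((hH j).mul (hv.pow 2)).aestronglyMeasurable
  have b : ∀ j, ∀ᵐ x, ‖H j x * v x ^ 2‖ ≤ B x * v x ^ 2 := by
    intro j
    filter_upwards [hb j] with x hx
    rw [Real.norm_eq_abs, abs_mul, abs_of_nonneg (sq_nonneg (v x))]
    exact mul_le_mul_of_nonneg_right hx (sq_nonneg _)
  have t : ∀ᵐ x, Tendsto (fun j => H j x * v x ^ 2) atTop (𝓝 (L x * v x ^ 2)) := by
    filter_upwards [hl] with x hx
    exact hx.mul_const _
  refine ⟨hB.mono' (aestronglyMeasurable_of_tendsto_ae atTop m t) ?_,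
    tendsto_integral_of_dominated_convergence _ m hB b t⟩
  have b' : ∀ᵐ x, ∀ j, ‖H j x * v x ^ 2‖ ≤ B x * v x ^ 2 := ae_all_iff.2 b
  filter_upwards [b', t] with x h1 h2
  exact le_of_tendsto' h2.norm h1

theorem dbs_bd {φ : R3 → ℝ} (h : ContDiff ℝ (⊤ : ℕ∞) φ) (hc : HasCompactSupport φ) :
    ∃ B : ℝ, 0 ≤ B ∧ ∀ j y, |pd j φ y| ≤ B := by
  have hb : ∀ j, ∃ C, ∀ y, ‖pd j φ y‖ ≤ C := by
    intro j
    refine (poe_pd_cd h j).continuous.bounded_above_of_compact_support ?_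
    unfold pd
    exact hc.fderiv_apply (𝕜 := ℝ) _
  choose C hC using hb
  refine ⟨∑ i, |C i|, Finset.sum_nonneg fun i _ => abs_nonneg _, fun j z => ?_⟩
  exact ((hC j z).trans (le_abs_self _)).trans
    (Finset.single_le_sum (f := fun j => |C j|) (fun j _ => abs_nonneg _) (Finset.mem_univ j))

theorem dbs_lip {φ : R3 → ℝ} (h : ContDiff ℝ (⊤ : ℕ∞) φ) (hc : HasCompactSupport φ) :
    ∃ B : ℝ, 0 ≤ B ∧ ∀ x y, |φ x - φ y| ≤ B * nr (x - y) := by
  obtain ⟨B, hB, hb⟩ := dbs_bd h hc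
  exact ⟨3 * B, by positivity, fun x y => poe_lip (h.differentiable (by simp)) hB hb x y⟩

theorem dbs_pdc {g : R3 → ℝ} (hc : HasCompactSupport g) (i : Fin 3) :
    HasCompactSupport (pd i g) := by
  unfold pd
  exact hc.fderiv_apply (𝕜 := ℝ) _

theorem dbs_ac {g : R3 → ℝ} (hc : HasCompactSupport g) (i : Fin 3) :
    HasCompactSupport (poea g i) := by
  have h : ∀ j, HasCompactSupport (fun y => pd j g y * pd j (pd i g) y) := fun j =>
    (dbs_pdc hc j).mul_right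
  have e : poea g i = fun y => (fun y => pd 0 g y * pd 0 (pd i g) y) y +
      (fun y => pd 1 g y * pd 1 (pd i g) y) y + (fun y => pd 2 g y * pd 2 (pd i g) y) y := by
    funext y
    unfold poea
    rw [Fin.sum_univ_three]
  rw [e]
  exact ((h 0).add (h 1)).add (h 2)

/-- common Lipschitz constant -/
theorem dbs_B {g : R3 → ℝ} (hg : ContDiff ℝ (⊤ : ℕ∞) g) (hc : HasCompactSupport g) :
    ∃ B : ℝ, 0 ≤ B ∧ (∀ i x y, |pd i g x - pd i g y| ≤ B * nr (x - y)) ∧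
    (∀ i x y, |poea g i x - poea g i y| ≤ B * nr (x - y)) ∧ (∀ i y, |pd i g y| ≤ B) ∧
    ∀ i j y, |pd j (pd i g) y| ≤ B := by
  choose B1 hB1 h1 using fun i => dbs_lip (poe_pd_cd hg i) (dbs_pdc hc i)
  choose B2 hB2 h2 using fun i => dbs_lip (poea_cd hg i) (dbs_ac hc i)
  obtain ⟨B3, hB3, h3⟩ := dbs_bd hg hc
  choose B4 hB4 h4 using fun i => dbs_bd (poe_pd_cd hg i) (dbs_pdc hc i)
  have s1 : ∀ i, B1 i ≤ ∑ i, B1 i := fun i =>
    Finset.single_le_sum (f := B1) (fun j _ => hB1 j) (Finset.mem_univ i)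
  have s2 : ∀ i, B2 i ≤ ∑ i, B2 i := fun i =>
    Finset.single_le_sum (f := B2) (fun j _ => hB2 j) (Finset.mem_univ i)
  have s4 : ∀ i, B4 i ≤ ∑ i, B4 i := fun i =>
    Finset.single_le_sum (f := B4) (fun j _ => hB4 j) (Finset.mem_univ i)
  have p1 : 0 ≤ ∑ i, B1 i := Finset.sum_nonneg fun j _ => hB1 j
  have p2 : 0 ≤ ∑ i, B2 i := Finset.sum_nonneg fun j _ => hB2 j
  have p4 : 0 ≤ ∑ i, B4 i := Finset.sum_nonneg fun j _ => hB4 j
  refine ⟨(∑ i, B1 i) + (∑ i, B2 i) + B3 + ∑ i, B4 i, by positivity, fun i x y => ?_,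
    fun i x y => ?_, fun i y => ?_, fun i j y => ?_⟩
  · refine (h1 i x y).trans (mul_le_mul_of_nonneg_right ?_ (poe_nr_nonneg _))
    linarith [s1 i]
  · refine (h2 i x y).trans (mul_le_mul_of_nonneg_right ?_ (poe_nr_nonneg _))
    linarith [s2 i]
  · linarith [h3 i y]
  · linarith [h4 i j y, s4 i]

theorem dbs_alg {z d b : Fin 3 → ℝ} {R B w : ℝ} (hR : 0 < R) (_hB : 0 ≤ B) (hw : 0 < w)
    (hwR : w ≤ 1 / R) (hz : ∀ i, |z i| ≤ R) (hd : ∀ i, |d i| ≤ B * R)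
    (hb : ∀ i, |b i| ≤ B * R) :
    |-((d 0 ^ 2 + d 1 ^ 2 + d 2 ^ 2) + (z 0 * b 0 + z 1 * b 1 + z 2 * b 2)) * w ^ 3 +
      3 * (z 0 * d 0 + z 1 * d 1 + z 2 * d 2) ^ 2 * w ^ 5| ≤
      (30 * B ^ 2 + 3 * B) * (1 / R) := by
  have hdi : ∀ i, d i ^ 2 ≤ (B * R) ^ 2 := by
    intro i
    rw [← sq_abs]
    exact pow_le_pow_left₀ (abs_nonneg _) (hd i) 2
  have hzb : ∀ i, |z i * b i| ≤ R * (B * R) := by
    intro i
    rw [abs_mul]
    exact mul_le_mul (hz i) (hb i) (abs_nonneg _) hR.le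
  have hzd : ∀ i, |z i * d i| ≤ R * (B * R) := by
    intro i
    rw [abs_mul]
    exact mul_le_mul (hz i) (hd i) (abs_nonneg _) hR.le
  have h1 : |(d 0 ^ 2 + d 1 ^ 2 + d 2 ^ 2) + (z 0 * b 0 + z 1 * b 1 + z 2 * b 2)| ≤
      3 * (B * R) ^ 2 + 3 * (R * (B * R)) := by
    have a0 := abs_le.1 (hzb 0)
    have a1 := abs_le.1 (hzb 1)
    have a2 := abs_le.1 (hzb 2)
    have q0 := hdi 0
    have q1 := hdi 1
    have q2 := hdi 2
    have r0 := sq_nonneg (d 0)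
    have r1 := sq_nonneg (d 1)
    have r2 := sq_nonneg (d 2)
    have r3 := sq_nonneg (B * R)
    rw [abs_le]
    constructor <;> linarith
  have h2 : (z 0 * d 0 + z 1 * d 1 + z 2 * d 2) ^ 2 ≤ (3 * (R * (B * R))) ^ 2 := by
    have a0 := abs_le.1 (hzd 0)
    have a1 := abs_le.1 (hzd 1)
    have a2 := abs_le.1 (hzd 2)
    refine sq_le_sq' ?_ ?_ <;> linarith
  have w3 : w ^ 3 ≤ (1 / R) ^ 3 := pow_le_pow_left₀ hw.le hwR 3
  have w5 : w ^ 5 ≤ (1 / R) ^ 5 := pow_le_pow_left₀ hw.le hwR 5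
  refine (abs_add_le _ _).trans ?_
  have e1 : |-((d 0 ^ 2 + d 1 ^ 2 + d 2 ^ 2) + (z 0 * b 0 + z 1 * b 1 + z 2 * b 2)) * w ^ 3| ≤
      (3 * (B * R) ^ 2 + 3 * (R * (B * R))) * (1 / R) ^ 3 := by
    rw [abs_mul, abs_neg, abs_of_pos (pow_pos hw 3)]
    exact mul_le_mul h1 w3 (pow_pos hw 3).le ((abs_nonneg _).trans h1)
  have e2 : |3 * (z 0 * d 0 + z 1 * d 1 + z 2 * d 2) ^ 2 * w ^ 5| ≤
      3 * (3 * (R * (B * R))) ^ 2 * (1 / R) ^ 5 := by
    rw [abs_of_nonneg (by positivity)]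
    exact mul_le_mul (by linarith) w5 (pow_pos hw 5).le (by positivity)
  refine (add_le_add e1 e2).trans (le_of_eq ?_)
  field_simp
  ring

theorem dbs_wlim {y : R3} (hy : nr y ≠ 0) :
    Tendsto (fun m : ℕ => pon_w (1 / ((m : ℝ) + 1)) y) atTop (𝓝 (nr y)⁻¹) := by
  unfold pon_w
  refine Tendsto.inv₀ ?_ hy
  have h1 : Tendsto (fun m : ℕ => y 0 ^ 2 + y 1 ^ 2 + y 2 ^ 2 + (1 / ((m : ℝ) + 1)) ^ 2) atTop
      (𝓝 (y 0 ^ 2 + y 1 ^ 2 + y 2 ^ 2 + 0 ^ 2)) :=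
    tendsto_const_nhds.add (tendsto_one_div_add_atTop_nhds_zero_nat.pow 2)
  have h2 := h1.sqrt
  rw [show y 0 ^ 2 + y 1 ^ 2 + y 2 ^ 2 + (0 : ℝ) ^ 2 = y 0 ^ 2 + y 1 ^ 2 + y 2 ^ 2 by ring] at h2
  exact h2

theorem dbs_gq (g : R3 → ℝ) (y : R3) (i : Fin 3) : gq g y i = poea g i y := by
  unfold gq poea
  exact Finset.sum_congr rfl fun l _ => mul_comm _ _

/-- the pair term -/
noncomputable def dbsS {n : ℕ} (g : R3 → ℝ) (k l : Fin n) (x : Cf n) : ℝ :=
  Tq (x k - x l) (gv g (x k) - gv g (x l)) (gv g (x k) - gv g (x l)) -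
      (∑ i, (gq g (x k) i - gq g (x l) i) * (x k i - x l i)) / nr (x k - x l) ^ 3

theorem dbsS_eq {n : ℕ} (g : R3 → ℝ) (k l : Fin n) (x : Cf n) : dbsS g k l x =
    -(((pd 0 g (x k) - pd 0 g (x l)) ^ 2 + (pd 1 g (x k) - pd 1 g (x l)) ^ 2 +
        (pd 2 g (x k) - pd 2 g (x l)) ^ 2) +
        ((x k 0 - x l 0) * (poea g 0 (x k) - poea g 0 (x l)) +
        (x k 1 - x l 1) * (poea g 1 (x k) - poea g 1 (x l)) +
        (x k 2 - x l 2) * (poea g 2 (x k) - poea g 2 (x l)))) * (nr (x k - x l))⁻¹ ^ 3 +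
      3 * ((x k 0 - x l 0) * (pd 0 g (x k) - pd 0 g (x l)) +
        (x k 1 - x l 1) * (pd 1 g (x k) - pd 1 g (x l)) +
        (x k 2 - x l 2) * (pd 2 g (x k) - pd 2 g (x l))) ^ 2 * (nr (x k - x l))⁻¹ ^ 5 := by
  unfold dbsS Tq gv
  simp only [dbs_gq, Fin.sum_univ_three, Pi.sub_apply]
  simp only [div_eq_mul_inv, inv_pow]
  ring

theorem dbs_pw {n : ℕ} (k l : Fin n) (e : ℝ) (x : Cf n) :
    poew k l e x = pon_w e (x k - x l) := by
  unfold poew poeq pon_w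
  simp only [Pi.sub_apply]

theorem dbs_pb {n : ℕ} {g : R3 → ℝ}
    (hg : ContDiff ℝ (⊤ : ℕ∞) g) {B : ℝ} (hB : 0 ≤ B)
    (hd : ∀ i x y, |pd i g x - pd i g y| ≤ B * nr (x - y))
    (ha : ∀ i x y, |poea g i x - poea g i y| ≤ B * nr (x - y))
    (k l : Fin n) {e : ℝ} (he : 0 < e) {x : Cf n} (hpos : 0 < nr (x k - x l)) :
    |poeD g (poeh g k l e) x| ≤ (30 * B ^ 2 + 3 * B) * (1 / nr (x k - x l)) := by
  rw [poeD_h hg k l he x]
  have hw : 0 < poew k l e x := by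
    rw [dbs_pw]
    exact pon_w_pos he (x k - x l)
  have hwl : poew k l e x ≤ 1 / nr (x k - x l) := by
    rw [dbs_pw]
    exact pon_w_le hpos
  exact dbs_alg (z := fun i => x k i - x l i) (d := fun i => pd i g (x k) - pd i g (x l))
    (b := fun i => poea g i (x k) - poea g i (x l)) hpos hB hw hwl
    (fun i => poe_abs_le_nr (x k - x l) i) (fun i => hd i _ _) (fun i => ha i _ _)

theorem dbs_pl {n : ℕ} {g : R3 → ℝ} (hg : ContDiff ℝ (⊤ : ℕ∞) g) (k l : Fin n) {x : Cf n}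
    (hx : nr (x k - x l) ≠ 0) :
    Tendsto (fun m : ℕ => poeD g (poeh g k l (1 / ((m : ℝ) + 1))) x) atTop
      (𝓝 (dbsS g k l x)) := by
  have h3 : Tendsto (fun m : ℕ => poew k l (1 / ((m : ℝ) + 1)) x) atTop
      (𝓝 (nr (x k - x l))⁻¹) := (dbs_wlim hx).congr fun m => (dbs_pw k l _ x).symm
  obtain ⟨A, hA⟩ : ∃ A : ℝ, A = -(((pd 0 g (x k) - pd 0 g (x l)) ^ 2 +
        (pd 1 g (x k) - pd 1 g (x l)) ^ 2 +
        (pd 2 g (x k) - pd 2 g (x l)) ^ 2) +
        ((x k 0 - x l 0) * (poea g 0 (x k) - poea g 0 (x l)) +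
        (x k 1 - x l 1) * (poea g 1 (x k) - poea g 1 (x l)) +
        (x k 2 - x l 2) * (poea g 2 (x k) - poea g 2 (x l)))) := ⟨_, rfl⟩
  obtain ⟨C, hC⟩ : ∃ C : ℝ, C = 3 * ((x k 0 - x l 0) * (pd 0 g (x k) - pd 0 g (x l)) +
        (x k 1 - x l 1) * (pd 1 g (x k) - pd 1 g (x l)) +
        (x k 2 - x l 2) * (pd 2 g (x k) - pd 2 g (x l))) ^ 2 := ⟨_, rfl⟩
  have e1 : dbsS g k l x = A * (nr (x k - x l))⁻¹ ^ 3 + C * (nr (x k - x l))⁻¹ ^ 5 := by
    rw [dbsS_eq, hA, hC]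
  have e2 : ∀ m : ℕ, A * poew k l (1 / ((m : ℝ) + 1)) x ^ 3 +
      C * poew k l (1 / ((m : ℝ) + 1)) x ^ 5 =
      poeD g (poeh g k l (1 / ((m : ℝ) + 1))) x := by
    intro m
    have hm : (0 : ℝ) < 1 / ((m : ℝ) + 1) := by positivity
    rw [poeD_h hg k l hm x, hA, hC]
  have h4 : Tendsto (fun m : ℕ => A * poew k l (1 / ((m : ℝ) + 1)) x ^ 3 +
      C * poew k l (1 / ((m : ℝ) + 1)) x ^ 5) atTop
      (𝓝 (A * (nr (x k - x l))⁻¹ ^ 3 + C * (nr (x k - x l))⁻¹ ^ 5)) :=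
    ((h3.pow 3).const_mul A).add ((h3.pow 5).const_mul C)
  rw [e1]
  exact h4.congr e2

theorem dbs_pid {n : ℕ} (hPAN : ST_PAN) {g : R3 → ℝ}
    (hg : ContDiff ℝ (⊤ : ℕ∞) g) (k l : Fin n) {v : Cf n → ℝ} (hv : ContDiff ℝ (⊤ : ℕ∞) v)
    (hvc : HasCompactSupport v) (hp : ContDiff ℝ (⊤ : ℕ∞) (Pg g v))
    (hpc : HasCompactSupport (Pg g v)) {e : ℝ} (he : 0 < e) :
    1 / 2 * (∫ x, poeD g (poeh g k l e) x * v x ^ 2) =
      (∫ x, poew k l e x * (Pg g v x * Pg g v x)) +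
      ∫ x, poew k l e x * (Pg g (Pg g v) x * v x) := by
  have j1 := poe_id1 hPAN hg hv hvc hp hpc rfl (poew_cd k l he) (poeh_cd hg k l he)
    (fun x => poeD_w k l he x)
  have j2 := poe_id2 hPAN hg hv hvc hp rfl (poeh_cd hg k l he)
  have e1 : ∫ x, poew k l e x * (Pg g v x * Pg g v x) = ∫ x, poew k l e x * Pg g v x ^ 2 := by
    congr 1
    funext x
    ring
  rw [e1, j1]
  linarith

theorem dbs_pair {n : ℕ} (hPAN : ST_PAN) (hSTB : ST_STB) {g : R3 → ℝ}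
    (hg : ContDiff ℝ (⊤ : ℕ∞) g) {B : ℝ} (hB : 0 ≤ B)
    (hd : ∀ i x y, |pd i g x - pd i g y| ≤ B * nr (x - y))
    (ha : ∀ i x y, |poea g i x - poea g i y| ≤ B * nr (x - y))
    {k l : Fin n} (hkl : k < l) {v : Cf n → ℝ} (hv : ContDiff ℝ (⊤ : ℕ∞) v)
    (hvc : HasCompactSupport v)
    (J1 : Integrable (fun x => rep x * (Pg g v x * Pg g v x)))
    (J2 : Integrable (fun x => rep x * (Pg g (Pg g v) x * v x)))
    (J3 : Integrable (fun x => rep x * (v x * v x))) :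
    Integrable (fun x => dbsS g k l x * v x ^ 2) ∧
    (∫ x, 1 / nr (x k - x l) * (Pg g v x * Pg g v x)) +
      (∫ x, 1 / nr (x k - x l) * (Pg g (Pg g v) x * v x)) =
      1 / 2 * ∫ x, dbsS g k l x * v x ^ 2 := by
  obtain ⟨hp, hpc⟩ := poe_sm hSTB hg hv hvc
  obtain ⟨hpp, hppc⟩ := poe_sm hSTB hg hp hpc
  have c1 : Continuous (fun x => Pg g v x * Pg g v x) := hp.continuous.mul hp.continuous
  have c2 : Continuous (fun x => Pg g (Pg g v) x * v x) := hpp.continuous.mul hv.continuous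
  have c3 : Continuous (fun x => v x * v x) := hv.continuous.mul hv.continuous
  have t1 := poe_lim hkl.ne c1 (poe_pi hkl c1 J1)
  have t2 := poe_lim hkl.ne c2 (poe_pi hkl c2 J2)
  have I3 := (poe_pi hkl c3 J3).const_mul (30 * B ^ 2 + 3 * B)
  have I4 : Integrable (fun x => (30 * B ^ 2 + 3 * B) * (1 / nr (x k - x l)) * v x ^ 2) := by
    refine I3.congr (Eventually.of_forall fun x => ?_)
    show (30 * B ^ 2 + 3 * B) * (1 / nr (x k - x l) * (v x * v x)) =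
      (30 * B ^ 2 + 3 * B) * (1 / nr (x k - x l)) * v x ^ 2
    ring
  have hm : ∀ m : ℕ, (0 : ℝ) < 1 / ((m : ℝ) + 1) := fun m => by positivity
  have a1 : ∀ m : ℕ, Continuous (poeD g (poeh g k l (1 / ((m : ℝ) + 1)))) := fun m =>
    poe_Dc hg (poeh_cd hg k l (hm m))
  have a2 : ∀ m : ℕ, ∀ᵐ x : Cf n, |poeD g (poeh g k l (1 / ((m : ℝ) + 1))) x| ≤
      (30 * B ^ 2 + 3 * B) * (1 / nr (x k - x l)) := by
    intro m
    filter_upwards [poe_null hkl.ne] with x hx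
    exact dbs_pb hg hB hd ha k l (hm m) (lt_of_le_of_ne (poe_nr_nonneg _) (Ne.symm hx))
  have a3 : ∀ᵐ x : Cf n, Tendsto (fun m : ℕ => poeD g (poeh g k l (1 / ((m : ℝ) + 1))) x) atTop
      (𝓝 (dbsS g k l x)) := by
    filter_upwards [poe_null hkl.ne] with x hx
    exact dbs_pl hg k l hx
  obtain ⟨i4, t4⟩ := dbs_dom hv.continuous a1 I4 a2 a3
  exact ⟨i4, tendsto_nhds_unique (t1.add t2) ((t4.const_mul (1 / 2)).congr fun m =>
    dbs_pid hPAN hg k l hv hvc hp hpc (hm m))⟩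

/-- the nucleus term -/
noncomputable def dbsN (g : R3 → ℝ) (a y : R3) : ℝ :=
  Tq (y - a) (gv g y) (gv g y) - (∑ i, gq g y i * (y i - a i)) / nr (y - a) ^ 3

theorem dbs_nf {e : ℝ} (he : 0 < e) {g : R3 → ℝ} (hg : ContDiff ℝ (⊤ : ℕ∞) g) (a y : R3) :
    pon_dot g (pon_dot g (ponm_tr a (pon_w e))) y =
      3 * pon_w e (y - a) ^ 5 * (∑ i, (y i - a i) * pd i g y) ^ 2 -
      pon_w e (y - a) ^ 3 * (∑ j, pd j g y ^ 2 +
        ∑ j, ∑ i, pd j g y * ((y i - a i) * pd j (pd i g) y)) := by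
  have hg' : g = ponm_tr a (ponm_tr (-a) g) := (ponm_tr_tr a g).symm
  have h1 : pon_dot g (pon_dot g (ponm_tr a (pon_w e))) =
      ponm_tr a (pon_dot (ponm_tr (-a) g) (pon_dot (ponm_tr (-a) g) (pon_w e))) := by
    conv_lhs => rw [hg']
    rw [ponm_dot_tr, ponm_dot_tr]
  rw [h1]
  show pon_dot (ponm_tr (-a) g) (pon_dot (ponm_tr (-a) g) (pon_w e)) (y - a) = _
  rw [pon_dd he (ponm_smooth_tr (-a) hg) (y - a)]
  have h2 : ∀ i, pd i (ponm_tr (-a) g) (y - a) = pd i g y := by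
    intro i
    rw [ponm_pd_tr]
    show pd i g (y - a - -a) = pd i g y
    rw [sub_neg_eq_add, sub_add_cancel]
  have h3 : ∀ j i, pd j (pd i (ponm_tr (-a) g)) (y - a) = pd j (pd i g) y := by
    intro j i
    rw [ponm_pd_tr, ponm_pd_tr]
    show pd j (pd i g) (y - a - -a) = pd j (pd i g) y
    rw [sub_neg_eq_add, sub_add_cancel]
  simp only [h2, h3, Pi.sub_apply]

theorem dbs_nb {e : ℝ} (he : 0 < e) {g : R3 → ℝ} (hg : ContDiff ℝ (⊤ : ℕ∞) g) {B ρ : ℝ}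
    (hB : 0 ≤ B) (hρ : 0 < ρ) (h1 : ∀ i y, |pd i g y| ≤ B) (h2 : ∀ i j y, |pd j (pd i g) y| ≤ B)
    (a : R3) (hz : ∀ y, nr (y - a) < ρ → ∀ i, pd i g y = 0) (y : R3) :
    |pon_dot g (pon_dot g (ponm_tr a (pon_w e))) y| ≤ 30 * B ^ 2 / ρ ^ 3 + 9 * B ^ 2 / ρ ^ 2 := by
  by_cases hy : nr (y - a) < ρ
  · have h3 : pon_dot g (pon_dot g (ponm_tr a (pon_w e))) y = 0 := by
      unfold pon_dot
      refine Finset.sum_eq_zero fun j _ => ?_
      rw [hz y hy j, zero_mul]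
    rw [h3, abs_zero]
    positivity
  · have hy' : ρ ≤ nr (y - a) := not_lt.1 hy
    have hR : 0 < nr (y - a) := lt_of_lt_of_le hρ hy'
    rw [dbs_nf he hg a y]
    have hw := pon_w_pos he (y - a)
    have hwl := pon_w_le (e := e) hR
    have hc : ∀ i, |y i - a i| ≤ nr (y - a) := fun i => pon_coord_le (y - a) i
    generalize pon_w e (y - a) = w at hw hwl
    generalize nr (y - a) = R at hy' hR hwl hc
    have hwR : w * R ≤ 1 := by
      have := mul_le_mul_of_nonneg_right hwl hR.le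
      rwa [one_div_mul_cancel hR.ne'] at this
    have hwρ : w ≤ 1 / ρ := hwl.trans (one_div_le_one_div_of_le hρ hy')
    have s1 : |∑ i, (y i - a i) * pd i g y| ≤ 3 * (R * B) := by
      refine (Finset.abs_sum_le_sum_abs _ _).trans ?_
      calc ∑ i, |(y i - a i) * pd i g y| ≤ ∑ _i : Fin 3, R * B := by
            refine Finset.sum_le_sum fun i _ => ?_
            rw [abs_mul]
            exact mul_le_mul (hc i) (h1 i y) (abs_nonneg _) hR.le
        _ = _ := by simp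
    have s2 : (∑ i, (y i - a i) * pd i g y) ^ 2 ≤ (3 * (R * B)) ^ 2 := by
      rw [← sq_abs]
      exact pow_le_pow_left₀ (abs_nonneg _) s1 2
    have s3 : |∑ j, pd j g y ^ 2 + ∑ j, ∑ i, pd j g y * ((y i - a i) * pd j (pd i g) y)| ≤
        3 * B ^ 2 + 9 * (B * (R * B)) := by
      refine (abs_add_le _ _).trans (add_le_add ?_ ?_)
      · refine (Finset.abs_sum_le_sum_abs _ _).trans ?_
        calc ∑ j, |pd j g y ^ 2| ≤ ∑ _j : Fin 3, B ^ 2 := by
              refine Finset.sum_le_sum fun j _ => ?_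
              rw [abs_pow]
              exact pow_le_pow_left₀ (abs_nonneg _) (h1 j y) 2
          _ = _ := by simp
      · refine (Finset.abs_sum_le_sum_abs _ _).trans ?_
        calc ∑ j, |∑ i, pd j g y * ((y i - a i) * pd j (pd i g) y)|
            ≤ ∑ _j : Fin 3, ∑ _i : Fin 3, B * (R * B) := by
              refine Finset.sum_le_sum fun j _ => ?_
              refine (Finset.abs_sum_le_sum_abs _ _).trans ?_
              refine Finset.sum_le_sum fun i _ => ?_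
              rw [abs_mul, abs_mul]
              exact mul_le_mul (h1 j y) (mul_le_mul (hc i) (h2 i j y) (abs_nonneg _) hR.le)
                (by positivity) hB
          _ = _ := by simp; ring
    have w2 : w ^ 2 ≤ (1 / ρ) ^ 2 := pow_le_pow_left₀ hw.le hwρ 2
    have w3 : w ^ 3 ≤ (1 / ρ) ^ 3 := pow_le_pow_left₀ hw.le hwρ 3
    have wR2 : (w * R) ^ 2 ≤ 1 := pow_le_one₀ (by positivity) hwR
    refine (abs_sub _ _).trans ?_
    have t1 : |3 * w ^ 5 * (∑ i, (y i - a i) * pd i g y) ^ 2| ≤ 27 * B ^ 2 * (1 / ρ) ^ 3 := by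
      rw [abs_of_nonneg (by positivity)]
      calc 3 * w ^ 5 * (∑ i, (y i - a i) * pd i g y) ^ 2 ≤ 3 * w ^ 5 * (3 * (R * B)) ^ 2 :=
            mul_le_mul_of_nonneg_left s2 (by positivity)
        _ = 27 * B ^ 2 * (w ^ 3 * (w * R) ^ 2) := by ring
        _ ≤ 27 * B ^ 2 * ((1 / ρ) ^ 3 * 1) :=
            mul_le_mul_of_nonneg_left (mul_le_mul w3 wR2 (by positivity) (by positivity))
              (by positivity)
        _ = _ := by ring
    have t2 : |w ^ 3 * (∑ j, pd j g y ^ 2 +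
        ∑ j, ∑ i, pd j g y * ((y i - a i) * pd j (pd i g) y))| ≤
        3 * B ^ 2 * (1 / ρ) ^ 3 + 9 * B ^ 2 * (1 / ρ) ^ 2 := by
      rw [abs_mul, abs_of_pos (pow_pos hw 3)]
      calc w ^ 3 * |_| ≤ w ^ 3 * (3 * B ^ 2 + 9 * (B * (R * B))) :=
            mul_le_mul_of_nonneg_left s3 (by positivity)
        _ = 3 * B ^ 2 * w ^ 3 + 9 * B ^ 2 * (w ^ 2 * (w * R)) := by ring
        _ ≤ 3 * B ^ 2 * (1 / ρ) ^ 3 + 9 * B ^ 2 * ((1 / ρ) ^ 2 * 1) :=
            add_le_add (mul_le_mul_of_nonneg_left w3 (by positivity))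
              (mul_le_mul_of_nonneg_left (mul_le_mul w2 hwR (by positivity) (by positivity))
                (by positivity))
        _ = _ := by ring
    refine (add_le_add t1 t2).trans (le_of_eq ?_)
    field_simp
    ring

theorem dbs_nlim {g : R3 → ℝ} (hg : ContDiff ℝ (⊤ : ℕ∞) g) (a : R3) {y : R3}
    (hy : nr (y - a) ≠ 0) :
    Tendsto (fun m : ℕ => pon_dot g (pon_dot g (ponm_tr a (pon_w (1 / ((m : ℝ) + 1))))) y) atTop
      (𝓝 (dbsN g a y)) := by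
  have hm : ∀ m : ℕ, (0 : ℝ) < 1 / ((m : ℝ) + 1) := fun m => by positivity
  have h3 := dbs_wlim hy
  have e : dbsN g a y = 3 * (nr (y - a))⁻¹ ^ 5 * (∑ i, (y i - a i) * pd i g y) ^ 2 -
      (nr (y - a))⁻¹ ^ 3 * (∑ j, pd j g y ^ 2 +
        ∑ j, ∑ i, pd j g y * ((y i - a i) * pd j (pd i g) y)) := by
    unfold dbsN Tq gv gq
    simp only [Fin.sum_univ_three, Pi.sub_apply, div_eq_mul_inv, inv_pow]
    ring
  rw [e]
  refine ((((h3.pow 5).const_mul 3).mul_const _).sub ((h3.pow 3).mul_const _)).congr fun m => ?_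
  rw [dbs_nf (hm m) hg a y]

theorem dbs_nuc {n : ℕ} (hPAN : ST_PAN) (hSTB : ST_STB) (hINT : ST_INTM) {g : R3 → ℝ}
    (hg : ContDiff ℝ (⊤ : ℕ∞) g) {B ρ : ℝ} (hB : 0 ≤ B) (hρ : 0 < ρ)
    (h1 : ∀ i y, |pd i g y| ≤ B) (h2 : ∀ i j y, |pd j (pd i g) y| ≤ B)
    (a : R3) (hz : ∀ y, nr (y - a) < ρ → ∀ i, pd i g y = 0)
    {v : Cf n → ℝ} (hv : ContDiff ℝ (⊤ : ℕ∞) v) (hvc : HasCompactSupport v) :
    Integrable (fun x : Cf n => (∑ k, dbsN g a (x k)) * v x ^ 2) ∧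
    (∫ x, ponm_A a x * (Pg g v x * Pg g v x)) + (∫ x, ponm_A a x * (Pg g (Pg g v) x * v x)) =
      1 / 2 * ∫ x : Cf n, (∑ k, dbsN g a (x k)) * v x ^ 2 := by
  obtain ⟨hp, hpc⟩ := poe_sm hSTB hg hv hvc
  obtain ⟨hpp, hppc⟩ := poe_sm hSTB hg hp hpc
  have t1 := ponm_lim hINT a hp hpc hp hpc
  have t2 := ponm_lim hINT a hpp hppc hv hvc
  have hm : ∀ m : ℕ, (0 : ℝ) < 1 / ((m : ℝ) + 1) := fun m => by positivity
  have hDD : ∀ {e : ℝ}, 0 < e → pon_D g (pon_D g (ponm_W a e : Cf n → ℝ)) =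
      fun x : Cf n => ∑ j, pon_dot g (pon_dot g (ponm_tr a (pon_w e))) (x j) := by
    intro e he
    have h3 : pon_D g (ponm_W a e : Cf n → ℝ) =
        fun x : Cf n => ∑ j, pon_dot g (ponm_tr a (pon_w e)) (x j) :=
      pon_D_sum g (ponm_w_smooth he a)
    rw [h3]
    exact pon_D_sum g (pon_dot_smooth hg (ponm_w_smooth he a))
  obtain ⟨i4, t4⟩ := dbs_dom (v := v) hv.continuous
    (H := fun (m : ℕ) (x : Cf n) =>
      ∑ k, pon_dot g (pon_dot g (ponm_tr a (pon_w (1 / ((m : ℝ) + 1))))) (x k))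
    (B := fun _ => n * (30 * B ^ 2 / ρ ^ 3 + 9 * B ^ 2 / ρ ^ 2))
    (L := fun x => ∑ k, dbsN g a (x k))
    (fun m => (ContDiff.sum fun k _ => pon_comp_smooth (pon_dot_smooth hg
      (pon_dot_smooth hg (ponm_w_smooth (hm m) a))) k).continuous)
    (poe_int2 hvc hv.continuous continuous_const)
    (fun m => Eventually.of_forall fun x => by
      refine (Finset.abs_sum_le_sum_abs _ _).trans ?_
      refine (Finset.sum_le_sum fun k _ => dbs_nb (hm m) hg hB hρ h1 h2 a hz (x k)).trans ?_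
      rw [Finset.sum_const, Finset.card_univ, Fintype.card_fin, nsmul_eq_mul])
    (by
      filter_upwards [ponm_ae n a] with x hx
      exact tendsto_finsetSum _ fun k _ => dbs_nlim hg a (hx k).ne')
  refine ⟨i4, ?_⟩
  refine tendsto_nhds_unique (t1.add t2) ((t4.const_mul (1 / 2)).congr fun m => ?_)
  have hid := pon_id hPAN hg (ponm_W_smooth (n := n) (hm m) a) hv hvc hp hpc
  rw [hDD (hm m)] at hid
  rw [← hid]
  congr 2
  funext x
  ring

theorem dbs_one {n M : ℕ} (hPAN : ST_PAN) (hSTB : ST_STB) (hINT : ST_INTM)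
    (X : Fin M → R3) (Z : Fin M → ℝ) {g : R3 → ℝ} {ρ : ℝ} (hg : ContDiff ℝ (⊤ : ℕ∞) g)
    (hc : HasCompactSupport g) (hρ : 0 < ρ) (hz : ∀ j y, nr (y - X j) < ρ → ∀ i, pd i g y = 0)
    {v : Cf n → ℝ} (hv : ContDiff ℝ (⊤ : ℕ∞) v) (hvc : HasCompactSupport v) :
    Integrable (fun x : Cf n => D2 X Z g x * v x ^ 2) ∧
    ∫ x, (rep x - ∑ k, pot X Z (x k)) * (Pg g v x ^ 2 + Pg g (Pg g v) x * v x) =
      1 / 2 * ∫ x, D2 X Z g x * v x ^ 2 := by
  obtain ⟨B, hB, b1, b2, b3, b4⟩ := dbs_B hg hc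
  obtain ⟨hp, hpc⟩ := poe_sm hSTB hg hv hvc
  obtain ⟨hpp, hppc⟩ := poe_sm hSTB hg hp hpc
  obtain ⟨K1, K2, -, -⟩ := hINT n M X Z _ _ hp hpc hp hpc
  obtain ⟨K3, K4, -, -⟩ := hINT n M X Z _ _ hpp hppc hv hvc
  obtain ⟨-, K6, -, -⟩ := hINT n M X Z _ _ hv hvc hv hvc
  have c1 : Continuous (fun x => Pg g v x * Pg g v x) := hp.continuous.mul hp.continuous
  have c2 : Continuous (fun x => Pg g (Pg g v) x * v x) := hpp.continuous.mul hv.continuous
  have PR : ∀ k l : Fin n, k < l → _ := fun k l hkl =>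
    dbs_pair hPAN hSTB hg hB b1 b2 hkl hv hvc K2 K4 K6
  have NU : ∀ j : Fin M, _ := fun j =>
    dbs_nuc hPAN hSTB hINT hg hB hρ b3 b4 (X j) (hz j) hv hvc
  have eV : (fun x : Cf n => D2 X Z g x * v x ^ 2) = fun x =>
      (∑ k, ∑ l, if k < l then dbsS g k l x * v x ^ 2 else 0) -
      ∑ j, Z j * ((∑ k, dbsN g (X j) (x k)) * v x ^ 2) := by
    funext x
    have e1 : D2 X Z g x = (∑ k, ∑ l, if k < l then dbsS g k l x else 0) +
        ∑ k, ∑ j, Z j * ((∑ i, gq g (x k) i * (x k i - X j i)) / nr (x k - X j) ^ 3 -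
          Tq (x k - X j) (gv g (x k)) (gv g (x k))) := rfl
    have e2 : ∑ k, ∑ j, Z j * ((∑ i, gq g (x k) i * (x k i - X j i)) / nr (x k - X j) ^ 3 -
          Tq (x k - X j) (gv g (x k)) (gv g (x k))) = -∑ j, Z j * ∑ k, dbsN g (X j) (x k) := by
      rw [Finset.sum_comm, ← Finset.sum_neg_distrib]
      refine Finset.sum_congr rfl fun j _ => ?_
      rw [← Finset.mul_sum, ← mul_neg, ← Finset.sum_neg_distrib]
      congr 1
      refine Finset.sum_congr rfl fun k _ => ?_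
      unfold dbsN
      ring
    rw [e1, e2, ← sub_eq_add_neg, sub_mul]
    congr 1
    · rw [Finset.sum_mul]
      refine Finset.sum_congr rfl fun k _ => ?_
      rw [Finset.sum_mul]
      refine Finset.sum_congr rfl fun l _ => ?_
      split_ifs
      · rfl
      · exact zero_mul _
    · rw [Finset.sum_mul]
      refine Finset.sum_congr rfl fun j _ => ?_
      ring
  have IS : ∀ k l : Fin n, Integrable (fun x : Cf n =>
      if k < l then dbsS g k l x * v x ^ 2 else 0) := by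
    intro k l
    split_ifs with hkl
    · exact (PR k l hkl).1
    · exact integrable_zero _ _ _
  have IN : ∀ j : Fin M, Integrable (fun x : Cf n =>
      Z j * ((∑ k, dbsN g (X j) (x k)) * v x ^ 2)) := fun j => (NU j).1.const_mul _
  have I1 : Integrable (fun x : Cf n =>
      ∑ k, ∑ l, if k < l then dbsS g k l x * v x ^ 2 else 0) :=
    integrable_finsetSum _ fun k _ => integrable_finsetSum _ fun l _ => IS k l
  have I2 : Integrable (fun x : Cf n => ∑ j, Z j * ((∑ k, dbsN g (X j) (x k)) * v x ^ 2)) :=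
    integrable_finsetSum _ fun j _ => IN j
  rw [eV]
  refine ⟨I1.sub I2, ?_⟩
  rw [integral_sub I1 I2,
    integral_finsetSum _ fun k _ => integrable_finsetSum _ fun l _ => IS k l,
    integral_finsetSum _ fun j _ => IN j]
  have eL : ∫ x, (rep x - ∑ k, pot X Z (x k)) * (Pg g v x ^ 2 + Pg g (Pg g v) x * v x) =
      ((∫ x, rep x * (Pg g v x * Pg g v x)) + ∫ x, rep x * (Pg g (Pg g v) x * v x)) -
      ((∫ x, (∑ k, pot X Z (x k)) * (Pg g v x * Pg g v x)) +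
        ∫ x, (∑ k, pot X Z (x k)) * (Pg g (Pg g v) x * v x)) := by
    have K24 : Integrable (fun x => rep x * (Pg g v x * Pg g v x) +
        rep x * (Pg g (Pg g v) x * v x)) := K2.add K4
    have K13 : Integrable (fun x => (∑ k, pot X Z (x k)) * (Pg g v x * Pg g v x) +
        (∑ k, pot X Z (x k)) * (Pg g (Pg g v) x * v x)) := K1.add K3
    rw [← integral_add K2 K4, ← integral_add K1 K3, ← integral_sub K24 K13]
    congr 1
    funext x
    ring
  have eN : ∀ {p q : Cf n → ℝ}, ContDiff ℝ (⊤ : ℕ∞) p → HasCompactSupport p →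
      ContDiff ℝ (⊤ : ℕ∞) q → HasCompactSupport q →
      ∫ x, (∑ k, pot X Z (x k)) * (p x * q x) =
      ∑ j, Z j * ∫ x, ponm_A (X j) x * (p x * q x) := by
    intro p q hp1 hp2 hq1 hq2
    have a1 : ∀ x : Cf n, (∑ k, pot X Z (x k)) * (p x * q x) =
        ∑ j, Z j * (ponm_A (X j) x * (p x * q x)) := by
      intro x
      unfold pot ponm_A
      rw [Finset.sum_comm, Finset.sum_mul]
      refine Finset.sum_congr rfl fun j _ => ?_
      have a2 : ∑ k, Z j / nr (x k - X j) = Z j * ∑ k, 1 / nr (x k - X j) := by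
        rw [Finset.mul_sum]
        refine Finset.sum_congr rfl fun k _ => ?_
        ring
      rw [a2]
      ring
    simp only [a1]
    rw [integral_finsetSum _ fun j _ => (ponm_int hINT (X j) hp1 hp2 hq1 hq2).const_mul (Z j)]
    refine Finset.sum_congr rfl fun j _ => ?_
    rw [integral_const_mul]
  rw [eL, eN hp hpc hp hpc, eN hpp hppc hv hvc, poe_sum c1 K2, poe_sum c2 K4, mul_sub]
  congr 1
  · rw [← Finset.sum_add_distrib, Finset.mul_sum]
    refine Finset.sum_congr rfl fun k _ => ?_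
    rw [integral_finsetSum _ fun l _ => IS k l, ← Finset.sum_add_distrib, Finset.mul_sum]
    refine Finset.sum_congr rfl fun l _ => ?_
    split_ifs with hkl
    · exact (PR k l hkl).2
    · simp
  · rw [← Finset.sum_add_distrib, Finset.mul_sum]
    refine Finset.sum_congr rfl fun j _ => ?_
    rw [integral_const_mul, ← mul_add, (NU j).2]
    ring

theorem DBS (_h1 : ST_VID) (_h2 : ST_IBP) (h3 : ST_PAN) (h4 : ST_STB) (h5 : ST_INTM)
    (_h6 : ST_HA2) (_h7 : ST_HA3) : ST_DBS := by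
  intro n M X Z g ρ u hg hc hρ hz hu
  have h := fun s => dbs_one h3 h4 h5 X Z hg hc hρ hz (hu s).1 (hu s).2
  refine ⟨fun s => (h s).1, ?_⟩
  rw [Finset.mul_sum]
  exact Finset.sum_congr rfl fun s _ => (h s).2

end Pool.Agent.Helper45.HV
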